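import Pool.Agent.H516.PCF.All

/-! Project PCF (helper516), part RF: product formula for the derivatives over a fibre. -/

set_option autoImplicit false

open Polynomial

namespace Pool.Agent.H596.PCF

open Pool.Agent.H516.PCF

theorem dn_succ (hEVAL : S_EVAL) {k : Type} [Field k] {d : ℕ} {P Q : k[X]} (hN : Nrm d P Q) (n : ℕ) (x : k)
    (hq : (qn d P Q (n + 1)).eval x ≠ 0) :
    (qn d P Q n).eval x ≠ 0 ∧
    dn d P Q (n + 1) x = dn d P Q n x * ((wr P Q).eval (fn d P Q n x) / Q.eval (fn d P Q n x) ^ 2) := by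
  have hq0 : (qn d P Q n).eval x ≠ 0 := fun h => hq ((hEVAL k d P Q hN n x).2 h).1
  refine ⟨hq0, ?_⟩
  obtain ⟨-, h2, h3⟩ := (hEVAL k d P Q hN n x).1 hq0
  have hQ : Q.eval (fn d P Q n x) ≠ 0 := by
    intro h
    rw [h, mul_zero] at h2
    exact hq h2
  unfold dn
  rw [h2, h3]
  have e : 2 * d = (2 * d - 2) + 2 := by have := hN.two_le; omega
  have e2 : ((qn d P Q n).eval x ^ d * Q.eval (fn d P Q n x)) ^ 2 =
      (qn d P Q n).eval x ^ (2 * d - 2) * ((qn d P Q n).eval x ^ 2 * Q.eval (fn d P Q n x) ^ 2) := by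
    rw [mul_pow, ← pow_mul, mul_comm d 2]
    nth_rewrite 1 [e]
    rw [pow_add]
    ring
  rw [e2]
  have h5 : (qn d P Q n).eval x ^ (2 * d - 2) ≠ 0 := pow_ne_zero _ hq0
  field_simp

theorem dn_prod (hEVAL : S_EVAL) {k : Type} [Field k] {d : ℕ} {P Q : k[X]} (hN : Nrm d P Q) (n : ℕ) (x : k)
    (hq : (qn d P Q n).eval x ≠ 0) :
    dn d P Q n x = ∏ j ∈ Finset.range n, ((wr P Q).eval (fn d P Q j x) / Q.eval (fn d P Q j x) ^ 2) := by
  induction n with
  | zero => simp [dn, pn, qn, it, wr]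
  | succ n ih =>
    obtain ⟨h1, h2⟩ := dn_succ hEVAL hN n x hq
    rw [Finset.prod_range_succ, h2, ih h1]

theorem rf (hEVAL : S_EVAL) (hFIB : S_FIB) (hSEMI : S_SEMI) (hCF : S_CF) (hWDEG : S_WDEG) : S_RF := by
  intro k _ _ _ d P Q hN n t
  set h : k → k := fun y => (wr P Q).eval y / Q.eval y ^ 2 with hh
  have hwr : wr P Q ≠ 0 := (hWDEG k P Q hN.Q0 (by rw [hN.degP]; exact hN.degQ)).1
  -- the product over the fibre of `h`
  have hcf : ∀ (i : ℕ), ((fib d P Q i t).map h).prod = cf d P Q i t (wr P Q) / cf d P Q i t Q ^ 2 := by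
    intro i
    rw [← hCF k d P Q hN i t (wr P Q) hwr, ← hCF k d P Q hN i t Q hN.Q0, hh, Multiset.prod_map_div,
      Multiset.prod_map_pow]
  have h1 : (fib d P Q n t).map (dn d P Q n) =
      (fib d P Q n t).map fun x => ∏ j ∈ Finset.range n, h (fn d P Q j x) := by
    apply Multiset.map_congr rfl
    intro x hx
    exact dn_prod hEVAL hN n x (((hFIB k d P Q hN n t).2.1 x).1 hx).1
  rw [h1]
  have h2 : ((fib d P Q n t).map fun x => ∏ j ∈ Finset.range n, h (fn d P Q j x)).prod =
      ∏ j ∈ Finset.range n, ((fib d P Q n t).map fun x => h (fn d P Q j x)).prod := by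
    exact Multiset.prod_map_prod
  rw [h2]
  have h3 : ∀ j ∈ Finset.range n, ((fib d P Q n t).map fun x => h (fn d P Q j x)).prod =
      (cf d P Q (n - j) t (wr P Q) / cf d P Q (n - j) t Q ^ 2) ^ d ^ j := by
    intro j hj
    rw [Finset.mem_range] at hj
    have e : n = (n - j) + j := by omega
    have h4 := (hSEMI k d P Q hN (n - j) j t).2
    rw [← e] at h4
    rw [h4, Multiset.map_bind, Multiset.prod_bind, ← hcf, ← Multiset.prod_map_pow]
    congr 1
    apply Multiset.map_congr rfl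
    intro s _
    have h5 : ((fib d P Q j s).map fun x => h (fn d P Q j x)) = (fib d P Q j s).map fun _ => h s := by
      apply Multiset.map_congr rfl
      intro x hx
      rw [(((hFIB k d P Q hN j s).2.1 x).1 hx).2]
    rw [h5, Multiset.map_const', Multiset.prod_replicate, (hFIB k d P Q hN j s).1]
  rw [Finset.prod_congr rfl h3]
  unfold en
  rw [← Finset.prod_range_reflect]
  apply Finset.prod_congr rfl
  intro j hj
  rw [Finset.mem_range] at hj
  have e1 : n - (n - 1 - j) = j + 1 := by omega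
  rw [e1]

end Pool.Agent.H596.PCF
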